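import Mathlib
import Pool.Agent.Helper94_SQS.Stmts

/-!
# MP_5a6e11_an: CAP, capturing by a random point
-/

set_option autoImplicit false

open MeasureTheory Filter Topology

namespace Pool.Agent.SQS.H41

open scoped ENNReal

theorem unif_singleton (v : Bool) : unif {v} = 1 / 2 := by
  unfold unif
  rw [PMF.toMeasure_apply_singleton _ _ (MeasurableSet.of_discrete)]
  simp [PMF.uniformOfFintype_apply]

theorem measurable_res (n : ℕ) : Measurable (res n) :=
  measurable_pi_lambda _ fun _ => measurable_pi_apply _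

theorem coin_res (n : ℕ) (s : Fin n → Bool) :
    coin ℕ {x | res n x = s} = (1 / 2) ^ n := by
  have h : {x : ℕ → Bool | res n x = s} =
      Set.pi (Finset.range n) fun i => {if h : i < n then s ⟨i, h⟩ else true} := by
    ext x
    simp only [Set.mem_ofPred_eq, Set.mem_pi, Finset.coe_range, Set.mem_Iio,
      Set.mem_singleton_iff]
    constructor
    · intro hx i hi
      rw [dif_pos hi, ← hx]; rfl
    · intro hx
      funext i
      have := hx i.1 i.2
      rw [dif_pos i.2] at this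
      exact this
  rw [h]
  unfold coin
  rw [Measure.infinitePi_pi _ (fun i _ => MeasurableSet.of_discrete)]
  rw [Finset.prod_congr rfl fun i _ => unif_singleton _]
  simp

theorem coin_res_mem (n : ℕ) (H : Finset (Fin n → Bool)) :
    coin ℕ {x | res n x ∈ H} ≤ H.card * (1 / 2) ^ n := by
  have h : {x : ℕ → Bool | res n x ∈ H} = ⋃ s ∈ H, {x | res n x = s} := by
    ext x; simp
  rw [h]
  refine (measure_biUnion_finset_le _ _).trans ?_
  rw [Finset.sum_congr rfl fun s _ => coin_res n s]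
  simp

theorem small_bound (n j : ℕ) (h : j ≤ n) :
    (n : ℝ≥0∞) * (1 / 2) ^ n ≤ ENNReal.ofReal (2 * (3 / 4) ^ j) := by
  have h1 : (n : ℝ≥0∞) * (1 / 2) ^ n = ENNReal.ofReal (n * (1 / 2) ^ n) := by
    rw [ENNReal.ofReal_mul (by positivity), ENNReal.ofReal_natCast,
      ENNReal.ofReal_pow (by positivity)]
    congr 2
    rw [ENNReal.ofReal_div_of_pos (by norm_num)]
    simp
  rw [h1]
  apply ENNReal.ofReal_le_ofReal
  have h2 : (1 : ℝ) + n * (1 / 2) ≤ (1 + 1 / 2) ^ n :=
    one_add_mul_le_pow (by norm_num) n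
  have h3 : (n : ℝ) * (1 / 2) ^ n ≤ 2 * (3 / 4) ^ n := by
    have : (3 / 4 : ℝ) ^ n = (1 + 1 / 2) ^ n * (1 / 2) ^ n := by
      rw [← mul_pow]; norm_num
    rw [this, ← mul_assoc]
    apply mul_le_mul_of_nonneg_right _ (by positivity)
    linarith
  refine h3.trans ?_
  have h4 : (3 / 4 : ℝ) ^ n ≤ (3 / 4) ^ j := pow_le_pow_of_le_one (by norm_num) (by norm_num) h
  linarith

/-- the captured weight -/
noncomputable def cw (Q : Finset M) (b : M → ℝ) (x : ℕ → Bool) : ℝ≥0∞ :=
  ∑ m ∈ Q, ENNReal.ofReal (b m) * ({x | res m.1 x ∈ m.2.1} : Set (ℕ → Bool)).indicator 1 x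

theorem measurableSet_capt (m : M) : MeasurableSet {x : ℕ → Bool | res m.1 x ∈ m.2.1} := by
  have : {x : ℕ → Bool | res m.1 x ∈ m.2.1} = res m.1 ⁻¹' (m.2.1 : Set (Fin m.1 → Bool)) := rfl
  rw [this]
  exact measurable_res _ (MeasurableSet.of_discrete)

theorem measurable_cw (Q : Finset M) (b : M → ℝ) : Measurable (cw Q b) := by
  unfold cw
  refine Finset.measurable_fun_sum _ fun m _ => ?_
  exact (measurable_one.indicator (measurableSet_capt m)).const_mul _

theorem lintegral_cw (Q : Finset M) (b : M → ℝ) (j : ℕ) (hb : ∀ m, 0 ≤ b m)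
    (hs : ∑ m ∈ Q, b m ≤ 1) (hj : ∀ m ∈ Q, j ≤ m.1) :
    ∫⁻ x, cw Q b x ∂coin ℕ ≤ ENNReal.ofReal (2 * (3 / 4) ^ j) := by
  unfold cw
  rw [lintegral_finsetSum _ fun m _ =>
    (measurable_one.indicator (measurableSet_capt m)).const_mul _]
  calc ∑ m ∈ Q, ∫⁻ x, ENNReal.ofReal (b m) *
        ({x | res m.1 x ∈ m.2.1} : Set (ℕ → Bool)).indicator 1 x ∂coin ℕ
      ≤ ∑ m ∈ Q, ENNReal.ofReal (b m) * ENNReal.ofReal (2 * (3 / 4) ^ j) := by
        apply Finset.sum_le_sum
        intro m hm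
        rw [lintegral_const_mul _ (measurable_one.indicator (measurableSet_capt m)),
          lintegral_indicator_one (measurableSet_capt m)]
        gcongr
        refine (coin_res_mem _ _).trans ?_
        refine le_trans ?_ (small_bound m.1 j (hj m hm))
        gcongr
        exact_mod_cast m.2.2
    _ = ENNReal.ofReal (∑ m ∈ Q, b m) * ENNReal.ofReal (2 * (3 / 4) ^ j) := by
        rw [← Finset.sum_mul, ENNReal.ofReal_sum_of_nonneg fun m _ => hb m]
    _ ≤ 1 * ENNReal.ofReal (2 * (3 / 4) ^ j) := by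
        gcongr
        exact ENNReal.ofReal_le_one.2 hs
    _ = _ := one_mul _

/-- CAP -/
theorem cap : CapStmt := by
  intro Q b hb hs hj
  have hfin : ∫⁻ x, ∑' j, cw (Q j) (b j) x ∂coin ℕ ≠ ∞ := by
    rw [lintegral_tsum fun j => (measurable_cw _ _).aemeasurable]
    have h1 : ∑' j, ∫⁻ x, cw (Q j) (b j) x ∂coin ℕ ≤
        ∑' j : ℕ, ENNReal.ofReal (2 * (3 / 4) ^ j) :=
      ENNReal.tsum_le_tsum fun j => lintegral_cw _ _ j (hb j) (hs j) (hj j)
    refine ne_top_of_le_ne_top ?_ h1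
    rw [← ENNReal.ofReal_tsum_of_nonneg (fun n => by positivity)
      ((summable_geometric_of_lt_one (by norm_num) (by norm_num)).mul_left 2)]
    exact ENNReal.ofReal_ne_top
  have hae : ∀ᵐ x ∂coin ℕ, ∑' j, cw (Q j) (b j) x < ∞ :=
    ae_lt_top (Measurable.ennreal_tsum fun j => measurable_cw _ _) hfin
  obtain ⟨x, hx⟩ := hae.exists
  refine ⟨x, fun δ hδ => ?_⟩
  have ht := ENNReal.tendsto_atTop_zero_of_tsum_ne_top hx.ne
  obtain ⟨J, hJ⟩ := (ENNReal.tendsto_atTop_zero.1 ht) (ENNReal.ofReal δ)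
    (ENNReal.ofReal_pos.2 hδ)
  refine ⟨J, fun j hjJ R hR hRx => ?_⟩
  have h1 := hJ j hjJ
  have h2 : ENNReal.ofReal (∑ m ∈ R, b j m) ≤ cw (Q j) (b j) x := by
    rw [ENNReal.ofReal_sum_of_nonneg fun m _ => hb j m]
    unfold cw
    refine le_trans ?_ (Finset.sum_le_sum_of_subset hR)
    apply Finset.sum_le_sum
    intro m hm
    have : x ∈ ({x | res m.1 x ∈ m.2.1} : Set (ℕ → Bool)) := hRx m hm
    rw [Set.indicator_of_mem this]
    simp
  exact (ENNReal.ofReal_le_ofReal_iff hδ.le).1 (h2.trans h1)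

end Pool.Agent.SQS.H41
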