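import Mathlib
import Pool.Agent.Helper94_SQS.Stmts

/-!
# MP_5a6e11_an: SQC, the set of functionals is sequentially closed
-/

set_option autoImplicit false

open MeasureTheory Filter Topology

namespace Pool.Agent.SQS.H41

/-- the indicator of one level -/
noncomputable def ia (m : M) : C(KS, ℝ) where
  toFun := fun p => if pa p.1 m = true then 1 else 0
  continuous_toFun := by
    have h : IsClopen {p : KS | pa p.1 m = true} :=
      (isClopen_discrete {true}).preimage (continuous_coord (Sum.inl m))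
    refine continuous_const.if ?_ continuous_const
    intro a ha
    change a ∈ frontier {p : KS | pa p.1 m = true} at ha
    rw [h.frontier_eq] at ha
    exact absurd ha (Set.notMem_empty _)

theorem ia_apply_pos {m : M} {p : KS} (h : pa p.1 m = true) : ia m p = 1 := by
  change (if pa p.1 m = true then (1 : ℝ) else 0) = 1
  rw [if_pos h]

theorem ia_apply_neg {m : M} {p : KS} (h : ¬ pa p.1 m = true) : ia m p = 0 := by
  change (if pa p.1 m = true then (1 : ℝ) else 0) = 0
  rw [if_neg h]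

theorem ia_nonneg (m : M) (p : KS) : 0 ≤ ia m p := by
  by_cases h : pa p.1 m = true
  · rw [ia_apply_pos h]; norm_num
  · rw [ia_apply_neg h]

theorem ch_apply_pos {ζ : Z} {P : Finset M} {p : KS} (h : p ∈ cs ζ P) : ch ζ P p = 1 := by
  change @ite ℝ _ (Classical.propDecidable _) 1 0 = 1
  rw [if_pos h]

theorem ch_apply_neg {ζ : Z} {P : Finset M} {p : KS} (h : ¬ p ∈ cs ζ P) : ch ζ P p = 0 := by
  change @ite ℝ _ (Classical.propDecidable _) 1 0 = 0
  rw [if_neg h]

theorem ch_nonneg (ζ : Z) (P : Finset M) (p : KS) : 0 ≤ ch ζ P p := by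
  by_cases h : p ∈ cs ζ P
  · rw [ch_apply_pos h]; norm_num
  · rw [ch_apply_neg h]

theorem sum_ia_le (F : Finset M) (p : KS) : ∑ m ∈ F, ia m p ≤ 1 := by
  by_cases h : ∃ m ∈ F, pa p.1 m = true
  · obtain ⟨m, hm, hp⟩ := h
    rw [Finset.sum_eq_single_of_mem m hm]
    · rw [ia_apply_pos hp]
    · intro m' _ hne
      apply ia_apply_neg
      intro h'
      exact hne (p.2.uniq m' m h' hp)
  · push Not at h
    rw [Finset.sum_eq_zero]
    · norm_num
    · intro m hm
      exact ia_apply_neg (by simp [h m hm])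

theorem mono_of_pos {φ : C(KS, ℝ) →L[ℝ] ℝ} (hφ : Pos φ) {f g : C(KS, ℝ)}
    (h : ∀ p, f p ≤ g p) : φ f ≤ φ g := by
  have h1 := hφ (g - f) (by
    rw [ContinuousMap.le_def]
    intro p
    have := h p
    simp only [ContinuousMap.zero_apply, ContinuousMap.sub_apply]
    linarith)
  rw [map_sub] at h1
  linarith

theorem sum_pos_le {φ : C(KS, ℝ) →L[ℝ] ℝ} (hφ : Pos φ) (h1 : φ 1 = 1) (F : Finset M) :
    ∑ m ∈ F, φ (ia m) ≤ 1 := by
  rw [← map_sum, ← h1]
  apply mono_of_pos hφ
  intro p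
  rw [ContinuousMap.sum_apply]
  exact sum_ia_le F p

theorem finite_level (N : ℕ) : {m : M | m.1 < N}.Finite := by
  have : {m : M | m.1 < N} ⊆ ⋃ n ∈ Finset.range N, Set.range
      (fun H : {H : Finset (Fin n → Bool) // H.card ≤ n} => (⟨n, H⟩ : M)) := by
    intro m hm
    simp only [Set.mem_iUnion, Finset.mem_range, exists_prop]
    exact ⟨m.1, hm, ⟨m.2, rfl⟩⟩
  refine Set.Finite.subset ?_ this
  exact Set.Finite.biUnion (Finset.finite_toSet _) fun n _ => Set.finite_range _

theorem finite_inactive (ha : ActStmt) (ξ : ℕ → Z) (k : ℕ) : {m : M | ¬ act ξ k m.1}.Finite := by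
  obtain ⟨N, hN⟩ := ha ξ k
  refine (finite_level N).subset fun m hm => ?_
  by_contra h
  exact hm (hN m.1 (not_lt.1 h))

theorem finsum_tail {f : M → ℝ} (hf : ∀ m, 0 ≤ f m) (h1 : ∀ F : Finset M, ∑ m ∈ F, f m ≤ 1)
    {ε : ℝ} (hε : 0 < ε) : ∃ P : Finset M, ∀ F : Finset M, Disjoint F P → ∑ m ∈ F, f m ≤ ε := by
  have hs : Summable f := summable_of_sum_le hf h1
  obtain ⟨P, hP⟩ := (summable_iff_vanishing_norm.1 hs) ε hε
  refine ⟨P, fun F hF => ?_⟩
  exact (le_abs_self _).trans (hP F hF).le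

/-- SQC -/
theorem sqc (ha : ActStmt) (hsub : SubStmt) (hcap : CapStmt) : SqCStmt := by
  classical
  intro u φ hu hlim
  have hpos : ∀ n, Pos (u n) := fun n => (hu n).1
  have hone : ∀ n, u n 1 = 1 := fun n => (hu n).2.1
  have hφpos : Pos φ := fun f hf => ge_of_tendsto' (hlim f) fun n => hpos n f hf
  have hφ1 : φ 1 = 1 := by
    have := hlim 1
    simp only [hone] at this
    exact tendsto_nhds_unique this tendsto_const_nhds |>.symm ▸ rfl
  refine ⟨hφpos, hφ1, fun ε hε => ?_⟩
  -- witnesses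
  have hw : ∀ n, ∃ (ζ : Z) (P : Finset M), coin ℕ (V ζ) ≤ ENNReal.ofReal (ε / 4 * (1 / 2) ^ (n + 1)) ∧
      1 - ε / 4 * (1 / 2) ^ (n + 1) ≤ u n (ch ζ P) := fun n =>
    (hu n).2.2 _ (by positivity)
  choose ξ P₀ hξ hP₀ using hw
  have hεn : ∀ n : ℕ, ε / 4 * (1 / 2) ^ (n + 1) ≤ ε / 8 := by
    intro n
    have : (1 / 2 : ℝ) ^ n ≤ 1 := pow_le_one₀ (by norm_num) (by norm_num)
    rw [pow_succ]
    nlinarith
  set ζ : Z := Z.sq ξ with hζ
  -- the measure
  have hVζ : coin ℕ (V ζ) ≤ ENNReal.ofReal ε := by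
    refine (hsub.2.1 ξ).trans ((ENNReal.tsum_le_tsum hξ).trans ?_)
    have hsum : Summable fun n : ℕ => ε / 4 * (1 / 2 : ℝ) ^ (n + 1) := by
      have := (summable_geometric_of_lt_one (r := (1 / 2 : ℝ)) (by norm_num) (by norm_num)).mul_left
        (ε / 4 * (1 / 2))
      refine this.congr fun n => ?_
      rw [pow_succ]; ring
    rw [← ENNReal.ofReal_tsum_of_nonneg (fun n => by positivity) hsum]
    apply ENNReal.ofReal_le_ofReal
    have : ∑' n : ℕ, ε / 4 * (1 / 2 : ℝ) ^ (n + 1) = ε / 4 * (1 / 2) * 2 := by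
      have h2 := tsum_geometric_two
      rw [show (ε / 4 * (1 / 2) * 2 : ℝ) = ε / 4 * (1 / 2) * ∑' n : ℕ, (1 / 2 : ℝ) ^ n by rw [h2],
        ← tsum_mul_left]
      congr 1; funext n; rw [pow_succ]; ring
    rw [this]; linarith
  -- finite sets of levels
  let Q : ℕ → Finset M := fun n => P₀ n ∪ (finite_inactive ha ξ n).toFinset
  have hQ : ∀ n p, ch (ξ n) (P₀ n) p ≤ ch ζ (Q n) p := by
    intro n p
    by_cases h : p ∈ cs (ξ n) (P₀ n)
    · have h2 : p ∈ cs ζ (Q n) := by
        rcases h with h | ⟨m, hm, hp⟩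
        · rcases p.2.rsq ξ n h with h' | ⟨m, hm, hna⟩
          · exact Or.inl h'
          · exact Or.inr ⟨m, Finset.mem_union_right _ ((Set.Finite.mem_toFinset _).2 hna), hm⟩
        · exact Or.inr ⟨m, Finset.mem_union_left _ hm, hp⟩
      rw [ch_apply_pos h, ch_apply_pos h2]
    · rw [ch_apply_neg h]
      exact ch_nonneg _ _ _
  have hQu : ∀ n, 1 - ε / 8 ≤ u n (ch ζ (Q n)) := by
    intro n
    have h1 := mono_of_pos (hpos n) (hQ n)
    have h2 := hP₀ n
    have h3 := hεn n
    linarith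
  -- tails
  have hianonneg : ∀ m, (0 : C(KS, ℝ)) ≤ ia m := fun m => by
    rw [ContinuousMap.le_def]; exact ia_nonneg m
  obtain ⟨P, hP⟩ := finsum_tail (f := fun m => φ (ia m)) (fun m => hφpos _ (hianonneg m))
    (sum_pos_le hφpos hφ1) (show 0 < ε / 8 by positivity)
  let L : ℕ → Finset M := fun j => (finite_level j).toFinset \ P
  have hn : ∀ j, ∃ n, j ≤ n ∧ ∑ m ∈ L j, u n (ia m) ≤ ε / 4 := by
    intro j
    have h1 : ∑ m ∈ L j, φ (ia m) ≤ ε / 8 := hP _ Finset.sdiff_disjoint
    have h2 : Tendsto (fun n => ∑ m ∈ L j, u n (ia m)) atTop (𝓝 (∑ m ∈ L j, φ (ia m))) :=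
      tendsto_finsetSum _ fun m _ => hlim (ia m)
    have h3 : ∀ᶠ n in atTop, ∑ m ∈ L j, u n (ia m) < ε / 4 :=
      h2.eventually_lt_const (by linarith)
    obtain ⟨n, hn1, hn2⟩ := (h3.and (eventually_ge_atTop j)).exists
    exact ⟨n, hn2, hn1.le⟩
  choose nn hnn hL using hn
  let Q' : ℕ → Finset M := fun j => (Q (nn j)).filter fun m => m ∉ P ∧ j ≤ m.1
  obtain ⟨x, hx⟩ := hcap Q' (fun j m => u (nn j) (ia m)) (fun j m => hpos _ _ (hianonneg m))
    (fun j => sum_pos_le (hpos _) (hone _) _)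
    (fun j m hm => (Finset.mem_filter.1 hm).2.2)
  obtain ⟨J, hJ⟩ := hx (ε / 8) (by positivity)
  -- the final witness
  let ξ' : ℕ → Z := fun k => if k = 0 then ζ else if k = 1 then Z.pt x else Z.nil
  let P' : Finset M := P ∪ ((finite_inactive ha ξ' 0).toFinset ∪ (finite_inactive ha ξ' 1).toFinset)
  refine ⟨Z.sq ξ', P', ?_, ?_⟩
  · refine le_trans (measure_mono ?_) hVζ
    intro y hy
    rw [V] at hy
    obtain ⟨k, hk⟩ := Set.mem_iUnion.1 hy
    by_cases h0 : k = 0
    · have : ξ' k = ζ := by simp [ξ', h0]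
      rw [this] at hk; exact hk
    · exfalso
      by_cases h1 : k = 1
      · have : ξ' k = Z.pt x := by simp [ξ', h1]
        rw [this, V] at hk; exact hk
      · have : ξ' k = Z.nil := by simp [ξ', h0, h1]
        rw [this, V] at hk; exact hk
  -- the inequality
  let R : ℕ → Finset M := fun j => (Q' j).filter fun m => res m.1 x ∈ m.2.1
  have key : ∀ j (p : KS), ch ζ (Q (nn j)) p ≤
      (ch (Z.sq ξ') P' + ∑ m ∈ L j, ia m + ∑ m ∈ R j, ia m : C(KS, ℝ)) p := by
    intro j p
    rw [ContinuousMap.add_apply, ContinuousMap.add_apply, ContinuousMap.sum_apply,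
      ContinuousMap.sum_apply]
    have hLn : 0 ≤ ∑ m ∈ L j, ia m p := Finset.sum_nonneg fun m _ => ia_nonneg m p
    have hRn : 0 ≤ ∑ m ∈ R j, ia m p := Finset.sum_nonneg fun m _ => ia_nonneg m p
    have hcn := ch_nonneg (Z.sq ξ') P' p
    by_cases h : p ∈ cs ζ (Q (nn j))
    · rw [ch_apply_pos h]
      rcases h with h | ⟨m, hm, hp⟩
      · have h0 : ξ' 0 = ζ := by simp [ξ']
        have h2 : p ∈ cs (Z.sq ξ') P' := by
          rcases p.2.rsq ξ' 0 (by rw [h0]; exact h) with h' | ⟨m, hm, hna⟩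
          · exact Or.inl h'
          · exact Or.inr ⟨m, Finset.mem_union_right _ (Finset.mem_union_left _
              ((Set.Finite.mem_toFinset _).2 hna)), hm⟩
        rw [ch_apply_pos h2]
        linarith
      · by_cases hmP : m ∈ P
        · have h2 : p ∈ cs (Z.sq ξ') P' := Or.inr ⟨m, Finset.mem_union_left _ hmP, hp⟩
          rw [ch_apply_pos h2]
          linarith
        · by_cases hmj : m.1 < j
          · have hmL : m ∈ L j := Finset.mem_sdiff.2 ⟨(Set.Finite.mem_toFinset _).2 hmj, hmP⟩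
            have h3 : ia m p ≤ ∑ m ∈ L j, ia m p :=
              Finset.single_le_sum (f := fun m => ia m p) (fun m _ => ia_nonneg m p) hmL
            rw [ia_apply_pos hp] at h3
            linarith
          · have hmQ' : m ∈ Q' j := Finset.mem_filter.2 ⟨hm, hmP, not_lt.1 hmj⟩
            by_cases hmx : res m.1 x ∈ m.2.1
            · have hmR : m ∈ R j := Finset.mem_filter.2 ⟨hmQ', hmx⟩
              have h3 : ia m p ≤ ∑ m ∈ R j, ia m p :=
                Finset.single_le_sum (f := fun m => ia m p) (fun m _ => ia_nonneg m p) hmR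
              rw [ia_apply_pos hp] at h3
              linarith
            · have h1 : ξ' 1 = Z.pt x := by simp [ξ']
              have hy := p.2.rpt m x hp hmx
              have h2 : p ∈ cs (Z.sq ξ') P' := by
                rcases p.2.rsq ξ' 1 (by rw [h1]; exact hy) with h' | ⟨m, hm, hna⟩
                · exact Or.inl h'
                · exact Or.inr ⟨m, Finset.mem_union_right _ (Finset.mem_union_right _
                    ((Set.Finite.mem_toFinset _).2 hna)), hm⟩
              rw [ch_apply_pos h2]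
              linarith
    · rw [ch_apply_neg h]
      linarith
  have hev : ∀ j, J ≤ j → 1 - ε ≤ u (nn j) (ch (Z.sq ξ') P') := by
    intro j hj
    have h1 := mono_of_pos (hpos (nn j)) (key j)
    rw [map_add, map_add, map_sum, map_sum] at h1
    have h2 := hQu (nn j)
    have h3 := hL j
    have h4 := hJ j hj (R j) (Finset.filter_subset _ _) (fun m hm => (Finset.mem_filter.1 hm).2)
    linarith
  have hnn' : Tendsto nn atTop atTop := tendsto_atTop_mono hnn tendsto_id
  have hl : Tendsto (fun j => u (nn j) (ch (Z.sq ξ') P')) atTop (𝓝 (φ (ch (Z.sq ξ') P'))) :=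
    (hlim _).comp hnn'
  exact ge_of_tendsto hl ((eventually_ge_atTop J).mono hev)

end Pool.Agent.SQS.H41
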